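import Pool.Agent.H64.GG.TC

/-!
# Row GTP: a family of small monomials which generates the field
-/

set_option autoImplicit false

open NumberField Height Finset Polynomial Pool.Agent.H24.RD Pool.Agent.H23.RDD Pool.Agent.H29.RQ
  Pool.Agent.H29.SX Pool.Agent.H29.LG Pool.Agent.H64.GG

namespace Pool.Agent.H7.GG

/-- All Laurent monomials lie in the span of the monomials in a box. -/
private theorem boxA {K M : Type} [Field K] [Field M] [Algebra K M] {r : ℕ} (N : Fin r → ℕ)
    (c : Fin r → K) (θ : Fin r → M) (hN : ∀ i, 0 < N i) (hc : ∀ i, c i ≠ 0)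
    (h : ∀ i, θ i ^ N i = algebraMap K M (c i)) (v u : Fin r → ℤ) :
    ∏ l, θ l ^ u l ∈ Submodule.span K
      {z : M | ∃ j : Fin r → ℕ, (∀ l, j l < N l) ∧ z = ∏ l, θ l ^ (v l + (j l : ℤ))} := by
  have h0 : ∀ i, θ i ≠ 0 := by
    intro i hi
    have h1 := h i
    rw [hi, zero_pow (hN i).ne'] at h1
    exact hc i ((FaithfulSMul.algebraMap_injective K M) (by rw [← h1, map_zero]))
  let j : Fin r → ℕ := fun l => ((u l - v l) % (N l : ℤ)).toNat
  have hj0 : ∀ l, ((j l : ℕ) : ℤ) = (u l - v l) % (N l : ℤ) := fun l =>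
    Int.toNat_of_nonneg (Int.emod_nonneg _ (by exact_mod_cast (hN l).ne'))
  have hj1 : ∀ l, j l < N l := by
    intro l
    have h1 := Int.emod_lt_of_pos (u l - v l) (show (0 : ℤ) < (N l : ℤ) by exact_mod_cast hN l)
    have h2 := hj0 l
    omega
  have hu : ∀ l, u l = (v l + (j l : ℤ)) + (N l : ℤ) * ((u l - v l) / (N l : ℤ)) := by
    intro l
    have h1 := Int.emod_add_mul_ediv (u l - v l) (N l : ℤ)
    have h2 := hj0 l
    linarith
  have h3 : ∏ l, θ l ^ u l = (∏ l, c l ^ ((u l - v l) / (N l : ℤ))) •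
      ∏ l, θ l ^ (v l + (j l : ℤ)) := by
    rw [Algebra.smul_def, map_prod, ← Finset.prod_mul_distrib]
    refine Finset.prod_congr rfl fun l _ => ?_
    rw [map_zpow₀, ← h l, ← zpow_natCast, ← zpow_mul, ← zpow_add₀ (h0 l)]
    congr 1
    rw [add_comm]
    exact hu l
  rw [h3]
  exact Submodule.smul_mem _ _ (Submodule.subset_span ⟨j, hj1, rfl⟩)

/-- The field generated by the radicals lies in the span of a box. -/
private theorem boxB {K M : Type} [Field K] [Field M] [Algebra K M] {r : ℕ} (N : Fin r → ℕ)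
    (c : Fin r → K) (θ : Fin r → M) (hN : ∀ i, 0 < N i) (hc : ∀ i, c i ≠ 0)
    (h : ∀ i, θ i ^ N i = algebraMap K M (c i)) (v : Fin r → ℤ) (z : M)
    (hz : z ∈ IntermediateField.adjoin K (Set.range θ)) :
    z ∈ Submodule.span K
      {z : M | ∃ j : Fin r → ℕ, (∀ l, j l < N l) ∧ z = ∏ l, θ l ^ (v l + (j l : ℤ))} := by
  have ha : ∀ x ∈ Set.range θ, IsAlgebraic K x := by
    rintro _ ⟨i, rfl⟩
    have h1 : IsAlgebraic K (θ i ^ N i) := by
      rw [h i]
      exact isAlgebraic_algebraMap _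
    exact h1.of_pow (hN i)
  have h2 : z ∈ Algebra.adjoin K (Set.range θ) := by
    rw [← IntermediateField.adjoin_toSubalgebra_of_isAlgebraic ha]
    exact hz
  have h3 : z ∈ Subalgebra.toSubmodule (Algebra.adjoin K (Set.range θ)) := h2
  rw [Algebra.adjoin_eq_span] at h3
  refine Submodule.span_le.2 ?_ h3
  intro y hy
  have h4 : ∃ u : Fin r → ℤ, y = ∏ l, θ l ^ u l := by
    refine Submonoid.closure_induction (motive := fun y _ => ∃ u : Fin r → ℤ, y = ∏ l, θ l ^ u l)
      ?_ ?_ ?_ hy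
    · rintro _ ⟨i, rfl⟩
      refine ⟨Pi.single i 1, ?_⟩
      rw [Finset.prod_eq_single i]
      · rw [Pi.single_eq_same, zpow_one]
      · intro b _ hb
        rw [Pi.single_eq_of_ne hb, zpow_zero]
      · intro hi
        exact absurd (Finset.mem_univ i) hi
    · exact ⟨0, by simp⟩
    · rintro x y _ _ ⟨u, rfl⟩ ⟨w, rfl⟩
      refine ⟨u + w, ?_⟩
      rw [← Finset.prod_mul_distrib]
      refine Finset.prod_congr rfl fun l _ => ?_
      have h0 : θ l ≠ 0 := by
        intro hi
        have h1 := h l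
        rw [hi, zero_pow (hN l).ne'] at h1
        exact hc l ((FaithfulSMul.algebraMap_injective K M) (by rw [← h1, map_zero]))
      rw [Pi.add_apply, zpow_add₀ h0]
  obtain ⟨u, rfl⟩ := h4
  exact boxA N c θ hN hc h v u

/-- GTP. -/
theorem pf_GTP : T_GTP := by
  intro K M _ _ _ r N c θ β d hd hN hc hβ h htop hf e
  obtain ⟨f, hfm, hfd, hf0⟩ := hf
  rw [eq_top_iff]
  intro z _
  have hint : IsIntegral (IntermediateField.adjoin K (Set.range θ)) β := ⟨f, hfm, hf0⟩
  have h1 : IntermediateField.adjoin (IntermediateField.adjoin K (Set.range θ)) {β} = ⊤ := by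
    have h2 := IntermediateField.adjoin_adjoin_left K (Set.range θ) {β}
    rw [Set.union_comm, Set.singleton_union, htop] at h2
    rw [eq_top_iff]
    intro y _
    have h3 : y ∈ (IntermediateField.adjoin (IntermediateField.adjoin K (Set.range θ))
        {β}).restrictScalars K := by
      rw [h2]
      exact IntermediateField.mem_top
    exact h3
  have h4 : z ∈ Algebra.adjoin (IntermediateField.adjoin K (Set.range θ)) {β} := by
    rw [← IntermediateField.adjoin_simple_toSubalgebra_of_isAlgebraic hint.isAlgebraic, h1]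
    exact Algebra.mem_top
  rw [Algebra.adjoin_singleton_eq_range_aeval] at h4
  obtain ⟨g, hg⟩ := h4
  have hg' : aeval β g = z := hg
  have hf1 : f ≠ 1 := by
    intro h5
    rw [h5, map_one] at hf0
    exact one_ne_zero hf0
  have h6 : aeval β (g %ₘ f) = z := by
    have h7 := congrArg (aeval β) (modByMonic_add_div g f)
    rw [map_add, map_mul, hf0, zero_mul, add_zero, hg'] at h7
    exact h7
  have h8 : (g %ₘ f).natDegree < d := (natDegree_modByMonic_lt g hfm hf1).trans_le hfd
  rw [← h6, aeval_eq_sum_range' h8]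
  refine Submodule.sum_mem _ fun i hi => ?_
  have h9 := boxB N c θ hN hc h (e i) ((g %ₘ f).coeff i : M) ((g %ₘ f).coeff i).2
  have h10 : (g %ₘ f).coeff i • β ^ i = LinearMap.mulLeft K (β ^ i) ((g %ₘ f).coeff i : M) := by
    rw [LinearMap.mulLeft_apply, mul_comm]
    rfl
  rw [h10]
  have h11 := Submodule.mem_map_of_mem (f := LinearMap.mulLeft K (β ^ i)) h9
  rw [Submodule.map_span] at h11
  refine Submodule.span_mono ?_ h11
  rintro _ ⟨y, ⟨j, hj, rfl⟩, rfl⟩
  exact ⟨i, j, Finset.mem_range.1 hi, hj, rfl⟩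

end Pool.Agent.H7.GG
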