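import Pool.Agent.H17.GG.LED

/-!
# Row SHF: from Laurent polynomials to polynomials
-/

set_option autoImplicit false

open NumberField Height Finset Polynomial Pool.Agent.H24.RD Pool.Agent.H23.RDD Pool.Agent.H29.RQ
  Pool.Agent.H29.SX Pool.Agent.H29.LG Pool.Agent.H64.GG

namespace Pool.Agent.H7.GG

/-- Jets of a sum of monomials. -/
private theorem jjs {K M : Type} [Field K] [Field M] [Algebra K M] {m R : ℕ} (P : Fin m → M)
    (κ : Fin m → ℕ) (n : Fin R → Fin m →₀ ℕ) (x : Fin R → K) (S : Finset (Fin R)) :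
    JJ P κ (∑ j ∈ S, MvPolynomial.monomial (n j) (x j)) = ∑ j ∈ S,
      algebraMap K M (x j) * ((∏ i, ((n j i : ℕ) : M) ^ κ i) * ∏ i, P i ^ n j i) := by
  classical
  induction S using Finset.induction_on with
  | empty =>
    rw [Finset.sum_empty, Finset.sum_empty]
    unfold JJ
    simp
  | insert a S ha ih =>
    rw [Finset.sum_insert ha, Finset.sum_insert ha, Pool.Agent.H17.GG.LED.jj_add, ih,
      Pool.Agent.H17.GG.LED.jj_mon]

/-- The binomial theorem in several variables. -/
private theorem bin {M : Type} [Field M] {k : ℕ} (a b : Fin k → M) (κ : Fin k → ℕ) :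
    ∏ l, (a l + b l) ^ κ l = ∑ κ' ∈ Fintype.piFinset (fun l => Finset.range (κ l + 1)),
      (∏ l, b l ^ (κ l - κ' l) * ((κ l).choose (κ' l) : M)) * ∏ l, a l ^ κ' l := by
  classical
  rw [Finset.prod_congr rfl fun l _ => add_pow (a l) (b l) (κ l), Finset.prod_univ_sum]
  refine Finset.sum_congr rfl fun κ' _ => ?_
  rw [← Finset.prod_mul_distrib]
  refine Finset.prod_congr rfl fun l _ => ?_
  ring

private theorem nas {K M : Type} [Field K] [Field M] [Algebra K M] (w : AbsoluteValue M ℝ)
    (hw : IsNonarchimedean w) {R : ℕ} (c : Fin R → K) (hc : ∀ j, w (algebraMap K M (c j)) ≤ 1)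
    (S : Finset (Fin R)) : w (algebraMap K M (∑ j ∈ S, c j)) ≤ 1 := by
  classical
  induction S using Finset.induction_on with
  | empty =>
    rw [Finset.sum_empty, map_zero, map_zero]
    exact zero_le_one
  | insert a S ha ih =>
    rw [Finset.sum_insert ha, map_add]
    exact (hw _ _).trans (max_le (hc a) ih)

/-- SHF. -/
theorem pf_SHF : T_SHF := by
  intro K M _ _ _ _ r R θ β nn x hR hβ hθ
  classical
  have hne : Nonempty (Fin R) := ⟨⟨0, hR⟩⟩
  obtain ⟨j₀, hj₀⟩ := Finite.exists_min (fun j => nn j 0)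
  have hu : ∀ i : Fin r, ∃ t : ℤ, ∀ j, 0 ≤ nn j i.succ + t := by
    intro i
    obtain ⟨j₁, h⟩ := Finite.exists_min (fun j => nn j i.succ)
    exact ⟨- nn j₁ i.succ, fun j => by have := h j; linarith⟩
  choose u hu using hu
  let m : Fin (r + 1) → ℤ := Fin.cons (- nn j₀ 0) u
  have hm : ∀ j l, 0 ≤ nn j l + m l := by
    intro j l
    refine Fin.cases ?_ (fun i => ?_) l
    · change 0 ≤ nn j 0 + (- nn j₀ 0)
      have := hj₀ j
      linarith
    · exact hu i j
  let n : Fin R → Fin (r + 1) →₀ ℕ := fun j =>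
    Finsupp.equivFunOnFinite.symm (fun l => (nn j l + m l).toNat)
  have hn : ∀ j l, ((n j l : ℕ) : ℤ) = nn j l + m l := fun j l => Int.toNat_of_nonneg (hm j l)
  let P : Fin (r + 1) → M := Fin.cons β θ
  have hP : ∀ l, P l ≠ 0 := by
    intro l
    refine Fin.cases ?_ (fun i => ?_) l
    · exact hβ
    · exact hθ i
  let μ : M := β ^ (-nn j₀ 0) * ∏ i, θ i ^ u i
  have hpr : ∀ j, ∏ l, P l ^ (n j l) = μ * pt θ β (nn j) := by
    intro j
    have h1 : ∀ l, P l ^ (n j l) = P l ^ (m l) * P l ^ (nn j l) := by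
      intro l
      rw [← zpow_natCast, hn, add_comm, zpow_add₀ (hP l)]
    rw [Finset.prod_congr rfl fun l _ => h1 l, Finset.prod_mul_distrib, Fin.prod_univ_succ,
      Fin.prod_univ_succ (fun l => P l ^ (nn j l))]
    rfl
  let F : MvPolynomial (Fin (r + 1)) K := ∑ j, MvPolynomial.monomial (n j) (x j)
  have hJ : ∀ κ : Fin (r + 1) → ℕ, JJ P κ F = μ *
      ∑ κ' ∈ Fintype.piFinset (fun l => Finset.range (κ l + 1)),
        (∏ l, ((m l : ℤ) : M) ^ (κ l - κ' l) * ((κ l).choose (κ' l) : M)) *
          JL θ β nn κ' x := by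
    intro κ
    have h1 : JJ P κ F = ∑ j, algebraMap K M (x j) *
        ((∏ i, ((n j i : ℕ) : M) ^ κ i) * ∏ i, P i ^ n j i) := jjs P κ n x Finset.univ
    rw [h1]
    have h2 : ∀ j, algebraMap K M (x j) * ((∏ i, ((n j i : ℕ) : M) ^ κ i) * ∏ i, P i ^ n j i) =
        ∑ κ' ∈ Fintype.piFinset (fun l => Finset.range (κ l + 1)), μ *
          ((∏ l, ((m l : ℤ) : M) ^ (κ l - κ' l) * ((κ l).choose (κ' l) : M)) *
          (algebraMap K M (x j) * (jc M κ' (nn j) * pt θ β (nn j)))) := by
      intro j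
      have h3 : ∀ i, ((n j i : ℕ) : M) = ((nn j i : ℤ) : M) + ((m i : ℤ) : M) := by
        intro i
        rw [← Int.cast_add, ← hn j i, Int.cast_natCast]
      rw [hpr, Finset.prod_congr rfl fun i _ => by rw [h3 i], bin, Finset.sum_mul,
        Finset.mul_sum]
      refine Finset.sum_congr rfl fun κ' _ => ?_
      unfold jc
      ring
    rw [Finset.sum_congr rfl fun j _ => h2 j, Finset.sum_comm, Finset.mul_sum]
    refine Finset.sum_congr rfl fun κ' _ => ?_
    rw [← Finset.mul_sum, ← Finset.mul_sum]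
    rfl
  refine ⟨F, j₀, u, hj₀, ?_, ?_, ?_⟩
  · intro w hw hx k
    have h1 : F.coeff k = ∑ j, if n j = k then x j else 0 := by
      change (∑ j, MvPolynomial.monomial (n j) (x j)).coeff k = _
      rw [MvPolynomial.coeff_sum]
      refine Finset.sum_congr rfl fun j _ => ?_
      rw [MvPolynomial.coeff_monomial]
    rw [h1]
    refine nas w hw _ (fun j => ?_) Finset.univ
    split_ifs
    · exact hx j
    · rw [map_zero, map_zero]
      exact zero_le_one
  · intro s hs
    have hle : ∀ κ κ' : Fin (r + 1) → ℕ,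
        κ' ∈ Fintype.piFinset (fun l => Finset.range (κ l + 1)) → ∀ l, κ' l ≤ κ l := by
      intro κ κ' h l
      have := Fintype.mem_piFinset.1 h l
      rw [Finset.mem_range] at this
      omega
    refine ⟨fun κ hκ => ?_, fun κ hκ => ?_⟩
    · change JJ P κ F = 0
      rw [hJ, Finset.sum_eq_zero, mul_zero]
      intro κ' h
      rw [hs κ' ((Finset.sum_le_sum fun l _ => hle κ κ' h l).trans_lt hκ), mul_zero]
    · change JJ P κ F = μ * _
      rw [hJ]
      congr 1
      rw [Finset.sum_eq_single κ]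
      · rw [Finset.prod_eq_one, one_mul]
        intro l _
        rw [Nat.sub_self, pow_zero, Nat.choose_self, Nat.cast_one, one_mul]
      · intro κ' h hne'
        rw [hs κ', mul_zero]
        rw [← hκ]
        have hex : ∃ l, κ' l < κ l := by
          by_contra hcon
          push Not at hcon
          exact hne' (funext fun l => le_antisymm (hle κ κ' h l) (hcon l))
        obtain ⟨l, hl⟩ := hex
        exact Finset.sum_lt_sum (fun l _ => hle κ κ' h l) ⟨l, Finset.mem_univ l, hl⟩
      · intro h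
        refine absurd (Fintype.mem_piFinset.2 fun l => ?_) h
        rw [Finset.mem_range]
        omega
  · intro φ p
    change MvPolynomial.eval₂ _ _ (∑ j, MvPolynomial.monomial (n j) (x j)) = _
    rw [MvPolynomial.eval₂_sum, Finset.mul_sum]
    refine Finset.sum_congr rfl fun j _ => ?_
    rw [MvPolynomial.eval₂_monomial, Finsupp.prod_fintype _ _ fun i => pow_zero _]
    have h1 : ∏ i, ((Fin.cons β θ : Fin (r + 1) → M) i ^ p) ^ (n j i) =
        (μ * pt θ β (nn j)) ^ p := by
      rw [← hpr, ← Finset.prod_pow]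
      refine Finset.prod_congr rfl fun i _ => ?_
      rw [← pow_mul, ← pow_mul, mul_comm]
    rw [h1, mul_pow]
    change algebraMap K M (φ (x j)) * _ = _
    ring

end Pool.Agent.H7.GG
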