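import Pool.Agent.H64.GG.TC

/-!
# Row STG: all the reductions together
-/

set_option autoImplicit false

open NumberField Height Finset Polynomial Pool.Agent.H24.RD Pool.Agent.H23.RDD Pool.Agent.H29.RQ
  Pool.Agent.H29.SX Pool.Agent.H29.LG Pool.Agent.H64.GG

namespace Pool.Agent.H7.GG

/-- A product of different primes is not divisible by a square. -/
private theorem sqf (S : Finset ℕ) (hS : ∀ p ∈ S, p.Prime) (q : ℕ) (hq : q.Prime) :
    ¬ q ^ 2 ∣ ∏ p ∈ S, p := by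
  intro h
  have h1 : ∀ T ⊆ S, q ∣ ∏ p ∈ T, p → q ∈ T := by
    intro T hT hd
    obtain ⟨p, hp, hqp⟩ := (hq.prime.dvd_finsetProd_iff _).1 hd
    rw [(Nat.prime_dvd_prime_iff_eq hq (hS p (hT hp))).1 hqp]
    exact hp
  have hqS : q ∈ S := h1 S (subset_refl S) ((dvd_pow_self q two_ne_zero).trans h)
  rw [← Finset.mul_prod_erase S (fun p => p) hqS, sq] at h
  have h2 := Nat.dvd_of_mul_dvd_mul_left hq.pos h
  exact Finset.notMem_erase q S (h1 (S.erase q) (Finset.erase_subset q S) h2)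

private theorem sqm (m : ℕ) (S : Finset ℕ) (hS : ∀ p ∈ S, p.Prime) (q : ℕ) (hq : q.Prime)
    (hqm : ¬ q ∣ m) : ¬ q ^ 2 ∣ m * ∏ p ∈ S, p := by
  intro h
  have h1 : Nat.Coprime (q ^ 2) m := (hq.coprime_iff_not_dvd.2 hqm).pow_left 2
  exact sqf S hS q hq (h1.dvd_of_dvd_mul_left h)

private theorem cym {m n : ℕ} (h : m ∣ n) : CY m ≤ CY n := by
  refine IntermediateField.adjoin.mono ℚ _ _ ?_
  intro z hz
  obtain ⟨c, rfl⟩ := h
  change z ^ (m * c) = 1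
  rw [pow_mul, show z ^ m = 1 from hz, one_pow]

private theorem gfm {r : ℕ} (θ : Fin r → Om) {m n : ℕ} (h : m ∣ n) : GF θ m ≤ GF θ n := by
  refine IntermediateField.adjoin.mono ℚ _ _ ?_
  rintro z (hz | hz)
  · left
    obtain ⟨c, rfl⟩ := h
    change z ^ (m * c) = 1
    rw [pow_mul, show z ^ m = 1 from hz, one_pow]
  · exact Or.inr hz

theorem pf_STG (hSTF : T_STF) (hMINP : T_MINP) (hREM : T_REM) (hCNJ : T_CNJ)
    (hDEGZ : T_DEGZ) : T_STG := by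
  classical
  intro r a N hG θ hθ m d α hm hd hcop hRep hmin P hP
  obtain ⟨m₀, k, K, E, β, g, x, hm0, hm0c, hKCY, hKE, hθE, hEGF, hβ0, hg0, hα, hk, hgk, hx,
    hfix, hCj, hRed, hRam⟩ := hSTF r a N hG θ hθ m d α hm hd hcop hRep P hP
  -- `g` is in the division group
  have hgDv : g ∈ Dv ℚ Om a := by
    refine ⟨hg0, k * ∏ i, N i, Nat.mul_pos hk (prod_pos fun i _ => hG.pos i),
      fun i => x i * ((∏ j ∈ univ.erase i, N j : ℕ) : ℤ), ?_⟩
    rw [pow_mul, hgk, ← prod_pow]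
    apply prod_congr rfl
    intro i _
    rw [← hθ i, ← Finset.mul_prod_erase univ N (mem_univ i), ← zpow_natCast, ← zpow_natCast,
      ← zpow_mul, ← zpow_mul]
    congr 1
    push_cast
    ring
  -- the primes
  set P1 := P.filter (fun p => ∀ i, ¬ p ∣ N i) with hP1
  set PN := P.filter (fun p => ¬ ∀ i, ¬ p ∣ N i) with hPN
  have hPNp : ∀ p ∈ PN, p.Prime := fun p hp => (hP p (mem_filter.1 hp).1).1
  set m₂ := m₀ * ∏ p ∈ P1.filter (fun p => ¬ p ∣ m₀), p with hm2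
  have hm2c : ∀ i, m₂.Coprime (N i) := by
    intro i
    refine Nat.Coprime.mul_left (hm0c i) (Nat.Coprime.prod_left ?_)
    intro p hp
    have h1 := (mem_filter.1 hp).1
    have h2 := mem_filter.1 h1
    exact (hP p h2.1).1.coprime_iff_not_dvd.2 (h2.2 i)
  have hm2pos : 0 < m₂ := by
    refine Nat.mul_pos hm0 (prod_pos ?_)
    intro p hp
    exact (hP p (mem_filter.1 (mem_filter.1 hp).1).1).1.pos
  have hm02 : m₀ ∣ m₂ := Dvd.intro _ rfl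
  obtain ⟨hcc, hconj⟩ := hMINP r a N θ m₀ d β g E hm0 hβ0 hEGF hCj hRed hgDv
    (by rw [← hα]; exact hmin) m₂ hm2pos hm02 hm2c
  have hqm2 : ∀ q : ℕ, q.Prime → q ∣ ∏ i, N i → ¬ q ∣ m₂ := by
    intro q hq hqN hqm
    obtain ⟨i, -, hi⟩ := (hq.prime.dvd_finsetProd_iff _).1 hqN
    have h1 := Nat.dvd_gcd hqm hi
    rw [hm2c i] at h1
    exact hq.one_lt.ne' (Nat.dvd_one.1 h1)
  have hIndS : ∀ S ⊆ PN, Ind (CY (m₂ * ∏ p ∈ S, p)) θ N := by
    intro S hS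
    refine hDEGZ r a N hG θ hθ _ (Nat.mul_pos hm2pos (prod_pos fun p hp =>
      (hPNp p (hS hp)).pos)) ?_
    intro q hq hqN
    exact sqm m₂ S (fun p hp => hPNp p (hS hp)) q hq (hqm2 q hq hqN)
  obtain ⟨B, hBS, hBc, hccB⟩ := hREM r N a θ β m₂ PN hm2pos hG.pos hθ
    (fun p hp => ⟨hPNp p hp, hqm2 p (hPNp p hp) (by
      have h1 := (mem_filter.1 hp).2
      push Not at h1
      obtain ⟨i, hi⟩ := h1
      exact hi.trans (dvd_prod_of_mem N (mem_univ i)))⟩) (hIndS PN (subset_refl _))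
  set m₃ := m₂ * ∏ p ∈ PN \ B, p with hm3
  have hm3pos : 0 < m₃ := Nat.mul_pos hm2pos (prod_pos fun p hp =>
      (hPNp p (mem_sdiff.1 hp).1).pos)
  have hm23 : m₂ ∣ m₃ := Dvd.intro _ rfl
  have hIndm3 : Ind (CY m₃) θ N := hIndS _ sdiff_subset
  -- the conjugates
  have hset : {y : Om | ∃ σ : Om ≃ₐ[ℚ] Om, (∀ z ∈ GF θ m₃, σ z = z) ∧ σ β = y} =
      {y : Om | ∃ σ : Om ≃ₐ[ℚ] Om, (∀ z ∈ GF θ m₂, σ z = z) ∧ σ β = y} := by
    have hfin : {y : Om | ∃ σ : Om ≃ₐ[ℚ] Om, (∀ z ∈ GF θ m₂, σ z = z) ∧ σ β = y}.Finite := by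
      apply Set.finite_of_ncard_pos
      have : cc (GF θ m₂) β = d := hcc
      rw [cc] at this
      omega
    refine Set.eq_of_subset_of_ncard_le ?_ ?_ hfin
    · rintro y ⟨σ, h1, h2⟩
      exact ⟨σ, fun z hz => h1 z (gfm θ hm23 hz), h2⟩
    · exact hccB.ge
  refine ⟨m₀, m₃, k, K, β, g, x, B, hm0, hm3pos, hm02.trans hm23, hm0c, hKCY, hβ0, hg0, hα, hk,
    hgk, hx, ?_, ?_, ?_, hIndm3, ?_, hRam⟩
  · obtain ⟨s, hs1, hs2⟩ := hCj
    exact ⟨s, hs1, fun σ h1 h2 => hs2 σ (hfix σ h1 h2)⟩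
  · rw [hcc] at hBc
    exact hBc
  · intro p hp hpB
    by_cases h1 : ∀ i, ¬ p ∣ N i
    · by_cases h2 : p ∣ m₀
      · exact h2.trans (hm02.trans hm23)
      · refine Dvd.dvd.trans ?_ hm23
        refine Dvd.dvd.mul_left (dvd_prod_of_mem (fun p => p) ?_) _
        exact mem_filter.2 ⟨mem_filter.2 ⟨hp, h1⟩, h2⟩
    · refine Dvd.dvd.mul_left (dvd_prod_of_mem (fun p => p) ?_) _
      exact mem_sdiff.2 ⟨mem_filter.2 ⟨hp, h1⟩, hpB⟩
  · refine hCNJ r N a θ β K m₃ hm3pos hG.pos hθ hG.nz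
      (hKCY.trans (cym (hm02.trans hm23))) hIndm3 ?_
    intro σ h1 h2
    obtain ⟨τ2, h3, h4⟩ := hconj σ (hfix σ h1 h2)
    have h5 : σ β ∈ {y : Om | ∃ σ : Om ≃ₐ[ℚ] Om, (∀ z ∈ GF θ m₃, σ z = z) ∧ σ β = y} := by
      rw [hset]
      exact ⟨τ2, h3, h4⟩
    obtain ⟨τ3, h6, h7⟩ := h5
    refine ⟨τ3, ?_, ?_, h7⟩
    · intro z hz
      apply h6
      have hle : CY m₃ ≤ GF θ m₃ :=
        IntermediateField.adjoin.mono ℚ _ _ Set.subset_union_left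
      exact hle hz
    · intro i
      exact h6 _ (IntermediateField.subset_adjoin ℚ _ (Or.inr ⟨i, rfl⟩))

end Pool.Agent.H7.GG
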