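import Pool.Agent.H75.GG.Targets2

/-!
# Row DG1: the parameters exist for large lengths
-/

set_option autoImplicit false

namespace Pool.Agent.H7.GG

open Finset Filter Pool.Agent.H6.NB Pool.Agent.H70.OQ Pool.Agent.H75.GS Pool.Agent.H75.GG

/-- The choice of `a0` and `a`. -/
private theorem par (n F E : ℕ) (hn : 3 ≤ n) (hF : n ^ 2 < F) (hFE : F ^ 2 ≤ 2 ^ E) :
    ∃ a0 a, 2 ≤ a0 ∧ a0 < a ∧ F ≤ n ^ 2 ^ a0 ∧ n ^ 2 ^ a0 ≤ F ^ 2 ∧ E ≤ 2 ^ a ∧ 2 ^ a ≤ 4 * E ∧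
      n ^ 4 ≤ n ^ 2 ^ a0 ∧ (2 * n + 1) * n ^ 2 ^ a0 ≤ n ^ 2 ^ a := by
  classical
  have hex : ∃ b, 1 ≤ b ∧ F ≤ n ^ 2 ^ b := by
    refine ⟨F, by nlinarith, ?_⟩
    calc F ≤ 2 ^ F := Nat.lt_two_pow_self.le
      _ ≤ 2 ^ 2 ^ F := Nat.pow_le_pow_right (by norm_num) Nat.lt_two_pow_self.le
      _ ≤ n ^ 2 ^ F := Nat.pow_le_pow_left (by omega) _
  obtain ⟨ha1, haF⟩ := Nat.find_spec hex
  set a0 := Nat.find hex with ha0
  have h2 : 2 ≤ a0 := by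
    by_contra hc
    have h1 : a0 = 1 := by omega
    rw [h1] at haF
    norm_num at haF
    omega
  have hmin : ¬ (1 ≤ a0 - 1 ∧ F ≤ n ^ 2 ^ (a0 - 1)) := Nat.find_min hex (by omega)
  have hlt : n ^ 2 ^ (a0 - 1) < F := by
    by_contra hc
    exact hmin ⟨by omega, by omega⟩
  have hsq : n ^ 2 ^ a0 = (n ^ 2 ^ (a0 - 1)) ^ 2 := by
    rw [← pow_mul, ← pow_succ]
    congr 2
    omega
  have hF1 : 1 ≤ F := by nlinarith
  have hFF : F ≤ F ^ 2 := by nlinarith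
  have hE : 2 ^ (a0 - 1) < E := by
    have h3 : 2 ^ 2 ^ (a0 - 1) < 2 ^ E := calc
      2 ^ 2 ^ (a0 - 1) ≤ n ^ 2 ^ (a0 - 1) := Nat.pow_le_pow_left (by omega) _
      _ < F := hlt
      _ ≤ F ^ 2 := hFF
      _ ≤ 2 ^ E := hFE
    exact (Nat.pow_lt_pow_iff_right (by norm_num)).1 h3
  have hE4 : 2 ^ (a0 + 1) ≤ 4 * E := by
    have h4 : 2 ^ (a0 + 1) = 4 * 2 ^ (a0 - 1) := by
      have : a0 + 1 = (a0 - 1) + 2 := by omega
      rw [this, pow_add]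
      ring
    omega
  have hE1 : 1 ≤ E := by
    have : 0 < 2 ^ (a0 - 1) := by positivity
    omega
  have hcl : 2 ^ Nat.clog 2 (E + 1) ≤ 4 * E := by
    have h5 := Nat.pow_pred_clog_lt_self (b := 2) (by norm_num) (x := E + 1) (by omega)
    have h6 : 0 < Nat.clog 2 (E + 1) := Nat.clog_pos (by norm_num) (by omega)
    have h7 : 2 ^ Nat.clog 2 (E + 1) = 2 * 2 ^ (Nat.clog 2 (E + 1)).pred := by
      rw [← pow_succ']
      congr 1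
      simp only [Nat.pred_eq_sub_one]
      omega
    omega
  have hEc : E + 1 ≤ 2 ^ Nat.clog 2 (E + 1) := Nat.le_pow_clog (by norm_num) _
  have hn4 : n ^ 4 ≤ n ^ 2 ^ a0 := by
    apply Nat.pow_le_pow_right (by omega)
    calc 4 = 2 ^ 2 := by norm_num
      _ ≤ 2 ^ a0 := Nat.pow_le_pow_right (by norm_num) h2
  refine ⟨a0, max (a0 + 1) (Nat.clog 2 (E + 1)), h2, by omega, haF, ?_, ?_, ?_, hn4, ?_⟩
  · rw [hsq]
    exact Nat.pow_le_pow_left hlt.le 2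
  · calc E ≤ E + 1 := by omega
      _ ≤ 2 ^ Nat.clog 2 (E + 1) := hEc
      _ ≤ _ := Nat.pow_le_pow_right (by norm_num) (le_max_right _ _)
  · rcases max_cases (a0 + 1) (Nat.clog 2 (E + 1)) with h8 | h8
    · rw [h8.1]; exact hE4
    · rw [h8.1]; exact hcl
  · calc (2 * n + 1) * n ^ 2 ^ a0 ≤ n ^ 4 * n ^ 2 ^ a0 := by
          apply Nat.mul_le_mul_right
          calc 2 * n + 1 ≤ n ^ 2 := by nlinarith
            _ ≤ n ^ 4 := Nat.pow_le_pow_right (by omega) (by norm_num)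
      _ ≤ n ^ 2 ^ a0 * n ^ 2 ^ a0 := Nat.mul_le_mul_right _ hn4
      _ = n ^ 2 ^ (a0 + 1) := by rw [← pow_add]; congr 1; ring
      _ ≤ _ := Nat.pow_le_pow_right (by omega)
          (Nat.pow_le_pow_right (by norm_num) (le_max_left _ _))

/-- The bound for the advice. -/
private theorem spb (n E H c : ℕ) (e : ℝ) (hH : H ≤ 2 ^ E) (h32 : 32 * E ≤ n) (h64 : 64 ≤ n)
    (h2 : 2 * (E : ℝ) ≤ e * n) (hc : 32 * 1154 * (c + 1) ^ 2 ≤ E) :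
    1154 * (((c : ℝ) + 1) * 2 ^ ((1 - e) * n)) ^ 2 * (H : ℝ) ^ 2 / 4 ^ n +
      2 * (H : ℝ) / 2 ^ n ≤ 1 / 16 := by
  have hH' : (H : ℝ) ≤ 2 ^ E := by exact_mod_cast hH
  have hH0 : (0 : ℝ) ≤ H := Nat.cast_nonneg _
  have hA : ((2 : ℝ) ^ ((1 - e) * n)) ^ 2 = 4 ^ n * 2 ^ (-(2 * e * n)) := by
    have h4 : (4 : ℝ) ^ n = 2 ^ (2 * (n : ℝ)) := by
      rw [Real.rpow_mul (by norm_num), Real.rpow_natCast]
      norm_num
    rw [h4, ← Real.rpow_natCast, ← Real.rpow_mul (by norm_num), ← Real.rpow_add (by norm_num)]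
    congr 1
    push_cast
    ring
  have hHE : (H : ℝ) ^ 2 ≤ 2 ^ (2 * (E : ℝ)) := by
    have h5 : (2 : ℝ) ^ (2 * (E : ℝ)) = (2 ^ E) ^ 2 := by
      rw [mul_comm, Real.rpow_mul (by norm_num), Real.rpow_natCast]
      norm_num
    rw [h5]
    exact pow_le_pow_left₀ hH0 hH' 2
  have hP : (2 : ℝ) ^ (-(2 * e * n)) * (H : ℝ) ^ 2 ≤ 2 ^ (-(2 * (E : ℝ))) := by
    calc (2 : ℝ) ^ (-(2 * e * n)) * (H : ℝ) ^ 2
        ≤ (2 : ℝ) ^ (-(2 * e * n)) * 2 ^ (2 * (E : ℝ)) :=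
          mul_le_mul_of_nonneg_left hHE (by positivity)
      _ = 2 ^ (-(2 * e * n) + 2 * (E : ℝ)) := by rw [Real.rpow_add (by norm_num)]
      _ ≤ _ := Real.rpow_le_rpow_of_exponent_le (by norm_num) (by nlinarith)
  have hQ : (2 : ℝ) ^ (-(2 * (E : ℝ))) * (E : ℝ) ≤ 1 := by
    have h6 : (E : ℝ) ≤ 2 ^ (2 * (E : ℝ)) := by
      calc (E : ℝ) ≤ 2 ^ E := by exact_mod_cast Nat.lt_two_pow_self.le
        _ = 2 ^ (E : ℝ) := by rw [Real.rpow_natCast]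
        _ ≤ _ := Real.rpow_le_rpow_of_exponent_le (by norm_num)
            (by have : (0 : ℝ) ≤ E := Nat.cast_nonneg _
                linarith)
    rw [Real.rpow_neg (by norm_num), inv_mul_le_iff₀ (by positivity)]
    linarith
  have hcE : (32 * 1154 * ((c : ℝ) + 1) ^ 2) ≤ E := by exact_mod_cast hc
  have h1 : 1154 * (((c : ℝ) + 1) * 2 ^ ((1 - e) * n)) ^ 2 * (H : ℝ) ^ 2 / 4 ^ n ≤ 1 / 32 := by
    have h7 : 1154 * (((c : ℝ) + 1) * 2 ^ ((1 - e) * n)) ^ 2 * (H : ℝ) ^ 2 / 4 ^ n =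
        1154 * ((c : ℝ) + 1) ^ 2 * (2 ^ (-(2 * e * n)) * (H : ℝ) ^ 2) := by
      rw [mul_pow, hA]
      field_simp
    rw [h7]
    have h8 : (0 : ℝ) < 2 ^ (-(2 * (E : ℝ))) := by positivity
    calc 1154 * ((c : ℝ) + 1) ^ 2 * (2 ^ (-(2 * e * n)) * (H : ℝ) ^ 2)
        ≤ 1154 * ((c : ℝ) + 1) ^ 2 * 2 ^ (-(2 * (E : ℝ))) :=
          mul_le_mul_of_nonneg_left hP (by positivity)
      _ ≤ (E : ℝ) / 32 * 2 ^ (-(2 * (E : ℝ))) :=
          mul_le_mul_of_nonneg_right (by linarith) h8.le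
      _ ≤ 1 / 32 := by linarith
  have h2' : 2 * (H : ℝ) / 2 ^ n ≤ 1 / 32 := by
    rw [div_le_div_iff₀ (by positivity) (by norm_num)]
    have h9 : 64 * 2 ^ E ≤ 2 ^ n := by
      calc 64 * 2 ^ E = 2 ^ (6 + E) := by rw [pow_add]; norm_num
        _ ≤ 2 ^ n := Nat.pow_le_pow_right (by norm_num) (by omega)
    have h10 : (64 : ℝ) * 2 ^ E ≤ 2 ^ n := by exact_mod_cast h9
    linarith
  linarith

/-- The constants. -/
private theorem cst (r : ℕ) (C : ℕ → ℕ) (ε : ℕ → ℝ) (hε : ∀ i, 0 < ε i) :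
    ∃ L : ℕ, 64 ≤ L ∧ r + 3 ≤ L ∧ ∀ i < r + 1, 32 * 1154 * (C i + 1) ^ 2 ≤ L ∧ 2 ≤ ε i * L := by
  refine ⟨64 + (r + 3) + ∑ i ∈ range (r + 1), (32 * 1154 * (C i + 1) ^ 2 + ⌈2 / ε i⌉₊),
    by omega, by omega, fun i hi => ?_⟩
  have h1 : 32 * 1154 * (C i + 1) ^ 2 + ⌈2 / ε i⌉₊ ≤
      ∑ i ∈ range (r + 1), (32 * 1154 * (C i + 1) ^ 2 + ⌈2 / ε i⌉₊) :=
    Finset.single_le_sum (f := fun i => 32 * 1154 * (C i + 1) ^ 2 + ⌈2 / ε i⌉₊)
      (fun _ _ => Nat.zero_le _) (mem_range.2 hi)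
  refine ⟨by omega, ?_⟩
  have h2 : (⌈2 / ε i⌉₊ : ℝ) ≤ ((64 + (r + 3) +
      ∑ i ∈ range (r + 1), (32 * 1154 * (C i + 1) ^ 2 + ⌈2 / ε i⌉₊) : ℕ) : ℝ) := by
    exact_mod_cast (by omega)
  have h3 : 2 / ε i ≤ (⌈2 / ε i⌉₊ : ℝ) := Nat.le_ceil _
  have h4 : ε i * (2 / ε i) = 2 := by
    have := (hε i).ne'
    field_simp
  calc (2 : ℝ) = ε i * (2 / ε i) := h4.symm
    _ ≤ _ := mul_le_mul_of_nonneg_left (h3.trans h2) (hε i).le

theorem pf_DG1 (hPM2 : T_PM2) : T_DG1 := by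
  intro K r h g C ε hε hgc
  suffices key : ∀ᶠ n in atTop, ∃ a0 a, Prs K (r + 1) n a0 a h g C ε by
    filter_upwards [key] with n ⟨a0, a, hp⟩
    exact ⟨a0, a, ⟨hp.n64, hp.a1, hp.aa, hp.len, hp.H1, hp.H2, hp.prm,
      fun i hi => le_trans (by omega) (hp.hh i (by omega)), fun i hi => hp.sp i (by omega),
      fun j hj => hp.gg j (by omega),
      le_trans (Nat.mul_le_mul_right _ (Nat.pow_le_pow_left (by omega) 3)) hp.cd⟩⟩
  obtain ⟨hh, hg, hc⟩ := hgc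
  obtain ⟨C0, hC0⟩ := hPM2 K
  obtain ⟨L, hL64, hLr, hLi⟩ := cst r C ε hε
  have e1 : ∀ᶠ n in atTop, ∀ i ∈ range (r + 1), ∀ j ∈ range (r + 1),
      g j (h i n ^ (2 * C0 + 8)) ^ (2 * C0 + 8) ≤ n := by
    rw [Filter.eventually_all_finset]
    intro i _
    rw [Filter.eventually_all_finset]
    intro j _
    exact hc i j _
  filter_upwards [hC0, e1, eventually_ge_atTop (2 ^ L)] with n h1 h2 h3
  obtain ⟨i0, hi0, hmi⟩ := Finset.exists_max_image (range (r + 1)) (fun i => h i n)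
    ⟨0, mem_range.2 (by omega)⟩
  obtain ⟨j0, hj0, hmj⟩ := Finset.exists_max_image (range (r + 1))
    (fun j => g j (h i0 n ^ (2 * C0 + 8))) ⟨0, mem_range.2 (by omega)⟩
  have hEA := h2 i0 hi0 j0 hj0
  have hE2 := (hg j0).2 (h i0 n ^ (2 * C0 + 8))
  have hnh := hh i0 n
  generalize hEd : g j0 (h i0 n ^ (2 * C0 + 8)) = E at hEA hE2 hmj
  generalize hhd : h i0 n = h0 at hnh hE2 hmi hmj
  have hLn : L < n := lt_of_lt_of_le Nat.lt_two_pow_self h3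
  have hh0 : h0 ≤ h0 ^ (2 * C0 + 8) := Nat.le_self_pow (by omega) _
  have hLE : L ≤ E := by
    have h4 : 2 ^ L ≤ 2 ^ E := h3.trans (hnh.trans (hh0.trans hE2))
    exact (Nat.pow_le_pow_iff_right (by norm_num)).1 h4
  have hE32 : 32 * E ≤ n := calc
    32 * E ≤ E * E := Nat.mul_le_mul_right _ (by omega)
    _ = E ^ 2 := by ring
    _ ≤ E ^ (2 * C0 + 8) := Nat.pow_le_pow_right (by omega) (by omega)
    _ ≤ n := hEA
  have hEE : E * E ≤ n := calc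
    E * E = E ^ 2 := by ring
    _ ≤ E ^ (2 * C0 + 8) := Nat.pow_le_pow_right (by omega) (by omega)
    _ ≤ n := hEA
  have hF3 : h0 + n ^ 2 + r + 2 ≤ h0 ^ 3 := by
    have h5 : n ^ 2 ≤ h0 ^ 2 := Nat.pow_le_pow_left hnh 2
    have h6 : h0 ^ 2 + 2 * h0 ≤ h0 ^ 3 := by nlinarith
    omega
  have hFE : (h0 + n ^ 2 + r + 2) ^ 2 ≤ h0 ^ (2 * C0 + 8) := calc
    (h0 + n ^ 2 + r + 2) ^ 2 ≤ (h0 ^ 3) ^ 2 := Nat.pow_le_pow_left hF3 2
    _ = h0 ^ 6 := by ring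
    _ ≤ h0 ^ (2 * C0 + 8) := Nat.pow_le_pow_right (by omega) (by omega)
  obtain ⟨a0, a, k1, k2, k3, k4, k5, k6, k7, k8⟩ :=
    par n (h0 + n ^ 2 + r + 2) E (by omega) (by omega) (hFE.trans hE2)
  have hHh : n ^ 2 ^ a0 ≤ h0 ^ (2 * C0 + 8) := k4.trans hFE
  have hHE : n ^ 2 ^ a0 ≤ 2 ^ E := hHh.trans hE2
  refine ⟨a0, a, ⟨by omega, by omega, k2, ?_, ?_, k8, ?_, ?_, ?_, ?_, ?_⟩⟩
  · refine le_trans ?_ k3
    nlinarith
  · exact hHE.trans (Nat.pow_le_pow_right (by norm_num) (by omega))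
  · refine h1 a (by omega) ?_
    calc (2 ^ a) ^ C0 ≤ (E ^ 2) ^ C0 := by
          apply Nat.pow_le_pow_left
          nlinarith
      _ = E ^ (2 * C0) := by rw [pow_mul]
      _ ≤ E ^ (2 * C0 + 8) := Nat.pow_le_pow_right (by omega) (by omega)
      _ ≤ n := hEA
  · intro i hi
    have := hmi i (mem_range.2 hi)
    refine le_trans ?_ k3
    nlinarith
  · intro i hi
    obtain ⟨m1, m2⟩ := hLi i hi
    have h7 : (2 : ℝ) * E ≤ ε i * n := by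
      have h8 : (L : ℝ) ≤ E := by exact_mod_cast hLE
      have h9 : (E : ℝ) * E ≤ n := by exact_mod_cast hEE
      have h10 : (2 : ℝ) ≤ ε i * E :=
        m2.trans (mul_le_mul_of_nonneg_left h8 (hε i).le)
      calc (2 : ℝ) * E ≤ ε i * E * E := mul_le_mul_of_nonneg_right h10 (Nat.cast_nonneg _)
        _ = ε i * (E * E) := by ring
        _ ≤ ε i * n := mul_le_mul_of_nonneg_left h9 (hε i).le
    have h11 := spb n E (n ^ 2 ^ a0) (C i) (ε i) hHE hE32 (by omega) h7 (by omega)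
    push_cast at h11
    exact h11
  · intro j hj m hm
    have h12 : g j m ≤ E :=
      ((hg j).1 (hm.le.trans hHh)).trans (hmj j (mem_range.2 hj))
    refine ⟨?_, by omega⟩
    calc 2 ^ g j m ≤ 2 ^ 2 ^ a := Nat.pow_le_pow_right (by norm_num) (by omega)
      _ ≤ n ^ 2 ^ a := Nat.pow_le_pow_left (by omega) _
  · calc (r + 1) ^ 3 * n ^ 2 ^ a0 ≤ n ^ 2 ^ a0 * n ^ 2 ^ a0 := by
          apply Nat.mul_le_mul_right
          refine le_trans ?_ k7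
          calc (r + 1) ^ 3 ≤ n ^ 3 := Nat.pow_le_pow_left (by omega) 3
            _ ≤ n ^ 4 := Nat.pow_le_pow_right (by omega) (by norm_num)
      _ ≤ 2 ^ E * 2 ^ E := Nat.mul_le_mul hHE hHE
      _ = 2 ^ (E + E) := by rw [pow_add]
      _ ≤ 2 ^ (n / 16) := Nat.pow_le_pow_right (by norm_num) (by omega)

end Pool.Agent.H7.GG
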