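import Pool.Agent.H75.GG.Targets
import Pool.Agent.H35.NB.EXI

/-!
gsg_modules, GXP: from the ideal to the real world (adapted from the file GEX of helper75).
-/

set_option autoImplicit false

namespace Pool.Agent.H7.GG

open Finset Filter Pool.Agent.H6.NB Pool.Agent.H70.OQ Pool.Agent.H75.GS Pool.Agent.H75.GG
open Pool.Agent.H35.NB.E

theorem pf_GXP (h2 : T_MEG) (h3 : Pool.Agent.H6.NB.T_HYB) (h4 : Pool.Agent.H6.NB.T_CPY)
    (h5 : T_CHG) (h7 : Pool.Agent.H6.NB.T_CLR) (h8 : Pool.Agent.H6.NB.T_DIF)
    (h9 : Pool.Agent.H6.NB.T_MUP) : T_GXP := by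
  classical
  intro W B Ω _ _ _ nn qb T D lev S t d h S' d' Λ β FF hSys hq hL12 hCl hcnt
  -- weights
  let Tp : Ω → Type := fun s => Fin (nn s) → VV (qb s) → Bool
  let m : Bool → ∀ s, Tp s → ℝ := fun b s p => ∏ i, mu b (qb s) (p i)
  have hmu0 : ∀ b q p, 0 ≤ mu b q p := fun b q p => (h9 b q).1 p
  have hmu1 : ∀ b q, ∑ p, mu b q p = 1 := fun b q => (h9 b q).2.1
  have hm0 : ∀ b s p, 0 ≤ m b s p := fun b s p => Finset.prod_nonneg fun i _ => hmu0 _ _ _
  have hm1 : ∀ b s, ∑ p, m b s p = 1 := by
    intro b s
    have := Fintype.sum_pow (fun p => mu b (qb s) p) (nn s)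
    rw [hmu1, one_pow] at this
    exact this.symm
  let Wt : (Ω → Bool) → (∀ s, Tp s) → ℝ := fun κ P => ∏ s, m (κ s) s (P s)
  have hW0 : ∀ κ P, 0 ≤ Wt κ P := fun κ P => Finset.prod_nonneg fun s _ => hm0 _ _ _
  have hW1 : ∀ κ, ∑ P, Wt κ P = 1 := fun κ => sum_prod_one (fun s p => m (κ s) s p) fun s => hm1 _ _
  -- the event
  let F : W → (Ω → Bool) → (∀ s, Tp s) → ℝ := fun p e P => bi (decide (FF p e P))
  set TT : ℝ := (Fintype.card W : ℝ) * 2 ^ Fintype.card Ω with hTT
  set E : ℝ := ∑ s, (nn s : ℝ) * ((Λ + 1) / √(2 ^ qb s)) with hE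
  -- Step 1 and 2
  have hstep : ∀ p : W, ∑ P, ∑ κ, Wt κ P * F p (elG (accG D P) (T p) κ h) P ≤
      ∑ e, (∑ P, Wt (fun _ => false) P * F p e P + E) := by
    intro p
    have e1 : ∀ P, ∑ κ, Wt κ P * F p (elG (accG D P) (T p) κ h) P =
        ∑ e, Wt (thG (accG D P) (T p) e) P * F p e P := by
      intro P
      exact h5 B Ω (accG D P) lev h (T p) (fun κ e => Wt κ P * F p e P)
        (h2 B Ω nn qb D lev S t d h hSys P).1
    rw [Finset.sum_congr rfl fun P _ => e1 P, Finset.sum_comm]
    refine Finset.sum_le_sum fun e _ => ?_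
    have hhyb := h3 Ω Tp lev (fun P s => thG (accG D P) (T p) e s) m (fun P => F p e P)
      (fun s => (nn s : ℝ) * ((Λ + 1) / √(2 ^ qb s))) hm0 hm1 (by
        intro P P' s hPP
        simp only [thG, accG]
        congr 1
        refine hSys.low s _ _ fun c hc => ?_
        cases c with
        | cst b => rfl
        | bas x => rfl
        | key s' => rfl
        | blk s' i v =>
          simp only [vlG]
          rw [hPP s' hc]) (by
        intro P s
        have hcpy := h4 (nn s) (VV (qb s) → Bool) (mu true (qb s)) (mu false (qb s))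
          (fun q => F p e (Function.update P s q)) ((Λ + 1) / √(2 ^ qb s)) (hmu0 _ _) (hmu0 _ _)
          (hmu1 _ _) (hmu1 _ _) (by
            intro P' i
            have hupd : ∀ q, updC (nn := nn) (qq := qb) (Function.update P s P') s i q =
                Function.update P s (Function.update P' i q) := by
              intro q
              simp [updC]
            have hcl : Cl (VV (qb s)) S' d' fun q =>
                decide (FF p e (Function.update P s (Function.update P' i q))) := by
              have := hCl p e (Function.update P s P') s i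
              simp only [hupd] at this
              exact this
            refine h8 (qb s) (fun q => F p e (Function.update P s (Function.update P' i q))) Λ
              (hq s) ?_ ?_
            · intro ρ
              exact hL12 s _ (h7 (VV (qb s)) S' d' _ ρ hcl)
            · intro y
              have := bi_le (decide (FF p e (Function.update P s (Function.update P' i y))))
              rw [abs_le]
              exact ⟨by linarith [this.1], this.2⟩)
        exact hcpy)
    have := (abs_le.mp hhyb).2
    linarith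
  -- Step 3
  have hcount : ∀ P, ∑ p : W, ∑ e, F p e P ≤ β * TT := by
    intro P
    have e1 : ∑ p : W, ∑ e, F p e P = ((univ.filter fun p : W × (Ω → Bool) =>
        FF p.1 p.2 P).card : ℝ) := by
      rw [Finset.card_filter, Fintype.sum_prod_type]
      push_cast
      refine Finset.sum_congr rfl fun p _ => Finset.sum_congr rfl fun e _ => ?_
      simp only [F, bi, decide_eq_true_eq]
    rw [e1]
    exact hcnt P
  have hA : ∑ p : W, ∑ P, ∑ κ, Wt κ P * F p (elG (accG D P) (T p) κ h) P ≤ (β + E) * TT := by
    refine (Finset.sum_le_sum fun p _ => hstep p).trans ?_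
    simp only [Finset.sum_add_distrib]
    have e1 : ∑ p : W, ∑ e : Ω → Bool, ∑ P, Wt (fun _ => false) P * F p e P ≤ β * TT := by
      have e2 : ∑ p : W, ∑ e : Ω → Bool, ∑ P, Wt (fun _ => false) P * F p e P =
          ∑ P, Wt (fun _ => false) P * ∑ p : W, ∑ e, F p e P := by
        simp only [Finset.mul_sum]
        rw [Finset.sum_congr rfl fun p _ => Finset.sum_comm]
        rw [Finset.sum_comm]
      rw [e2]
      calc _ ≤ ∑ P, Wt (fun _ => false) P * (β * TT) :=
            Finset.sum_le_sum fun P _ => mul_le_mul_of_nonneg_left (hcount P) (hW0 _ _)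
        _ = _ := by rw [← Finset.sum_mul, hW1, one_mul]
    have e3 : ∑ _p : W, ∑ _e : Ω → Bool, E = E * TT := by
      simp only [Finset.sum_const, Finset.card_univ, Fintype.card_fun, Fintype.card_bool,
        nsmul_eq_mul]
      push_cast
      rw [hTT]
      ring
    linarith
  have hfin : ∑ κ : Ω → Bool, ∑ P : Blk nn qb, WtB κ P *
      ((univ.filter fun p : W => FF p (elG (accG D P) (T p) κ h) P).card : ℝ) =
      ∑ p : W, ∑ P, ∑ κ, Wt κ P * F p (elG (accG D P) (T p) κ h) P := by
    have e1 : ∀ (κ : Ω → Bool) (P : Blk nn qb), WtB κ P *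
        ((univ.filter fun p : W => FF p (elG (accG D P) (T p) κ h) P).card : ℝ) =
        ∑ p : W, Wt κ P * F p (elG (accG D P) (T p) κ h) P := by
      intro κ P
      rw [← Finset.mul_sum, Finset.card_filter]
      push_cast
      congr 1
      refine Finset.sum_congr rfl fun p _ => ?_
      simp only [F, bi, decide_eq_true_eq]
    calc _ = ∑ κ : Ω → Bool, ∑ P : Blk nn qb, ∑ p : W,
          Wt κ P * F p (elG (accG D P) (T p) κ h) P :=
          Finset.sum_congr rfl fun κ _ => Finset.sum_congr rfl fun P _ => e1 κ P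
      _ = ∑ P : Blk nn qb, ∑ κ : Ω → Bool, ∑ p : W,
          Wt κ P * F p (elG (accG D P) (T p) κ h) P := Finset.sum_comm
      _ = ∑ P : Blk nn qb, ∑ p : W, ∑ κ : Ω → Bool,
          Wt κ P * F p (elG (accG D P) (T p) κ h) P :=
          Finset.sum_congr rfl fun P _ => Finset.sum_comm
      _ = _ := Finset.sum_comm
  rw [hfin]
  exact hA

end Pool.Agent.H7.GG
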